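import Pool.Agent.Y624.RF.LieQ
import Pool.Agent.Helper771.LieHomogNilp
import Pool.Agent.Helper771.LieHomogSolv
import Pool.Agent.Helper771.LieHomogFree

/-!
# Logical homogeneity in all varieties of nilpotent Lie algebras, of finite and infinite rank

New: part (b), helper624. Parts (a) and (c) are the starting result of helper771.
-/

set_option autoImplicit false

namespace Pool.Agent.Results.MP_4b2ccd_lc.AllNilpotentVarieties

open FirstOrder Pool.Agent.Y624.RF Pool.Agent.Helper771.LieHomog

universe u v w

/-- Complete answer to Q1, with part (b) for all varieties of nilpotent Lie algebras and for all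
ranks, finite or infinite.
(a) For every field `K` and every `r ≥ 1` the free Lie algebra of rank `r` is logically
homogeneous.
(b) Let `L` be a nilpotent Lie algebra over a field `K` which is relatively free: it has generators
`x i`, `i ∈ I`, such that every map from the generators to `L` extends to an endomorphism. Then `L`
is logically homogeneous, and if `L` is not abelian every orbit of tuples under the automorphisms
of `L` is defined by one formula.
(b') In particular this holds for the quotient of the free Lie algebra on any set `I` by any fully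
invariant ideal which contains a term of the lower central series, and
(b'') for the free `n`-nilpotent Lie algebras of rank `r`, `r, n ≥ 1`.
(c) For every finite field `K` and every `r ≥ 3` the free `2`-solvable Lie algebra of rank `r` is
not logically homogeneous; so the statement (c) of the problem is false. -/
theorem result :
    (∀ (K : Type u) [Field K] (r : ℕ), 1 ≤ r →
      LogicallyHomogeneous K (FreeLieAlgebra K (Fin r))) ∧
    (∀ (K : Type u) [Field K] (L : Type v) [LieRing L] [LieAlgebra K L] (I : Type w) (x : I → L),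
      RelFreeLie K L x → (∃ n, LieModule.lowerCentralSeries K L L n = ⊥) →
      LogicallyHomogeneous K L ∧
      ((∃ a b : L, ⁅a, b⁆ ≠ 0) → ∀ (m : ℕ) (μ : Fin m → L),
        ∃ φ : (lieLang K).Formula (Fin m), ∀ ν : Fin m → L,
          φ.Realize ν ↔ ∃ σ : L ≃ₗ⁅K⁆ L, ∀ i, σ (μ i) = ν i)) ∧
    (∀ (K : Type u) [Field K] (I : Type w) (J : LieIdeal K (FreeLieAlgebra K I)) (n : ℕ),
      (∀ f : FreeLieAlgebra K I →ₗ⁅K⁆ FreeLieAlgebra K I, ∀ a ∈ J, f a ∈ J) →
      LieModule.lowerCentralSeries K (FreeLieAlgebra K I) (FreeLieAlgebra K I) n ≤ J →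
      LogicallyHomogeneous K (FreeLieAlgebra K I ⧸ J)) ∧
    (∀ (K : Type u) [Field K] (r n : ℕ), 1 ≤ r → 1 ≤ n →
      LogicallyHomogeneous K (FreeNilpLie K r n)) ∧
    (∀ (K : Type u) [Field K] [Finite K] (r : ℕ), 3 ≤ r →
      ¬ LogicallyHomogeneous K (FreeSolvLie K r 2)) ∧
    ¬ (∀ (K : Type u) [Field K] (r n : ℕ), 1 ≤ r → 1 ≤ n →
      LogicallyHomogeneous K (FreeSolvLie K r n)) := by
  refine ⟨fun K _ r _ => free_homogeneous K r, ?_, ?_, ?_,
    fun K _ _ r hr => metabelian_not_homogeneous K r hr, fun h => ?_⟩
  · intro K _ L _ _ I x hx hN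
    exact ⟨fun m _ μ ν h => lie_homogeneous hx hN m μ ν h,
      fun hne m μ => lie_orbit hx hN hne m μ⟩
  · intro K _ I J n hJ hn m _ μ ν h
    exact lie_homogeneous (relFreeLie_quot J hJ) ⟨n, nilp_quot J hn⟩ m μ ν h
  · intro K _ r n _ _ m _ μ ν h
    exact lie_homogeneous (relFreeLie_quot _ (fun f a ha => map_mem_gam f n a ha))
      ⟨n, nilp_quot _ le_rfl⟩ m μ ν h
  · have : Fact (Nat.Prime 2) := ⟨Nat.prime_two⟩
    exact metabelian_not_homogeneous (ULift.{u} (ZMod 2)) 3 le_rfl
      (h (ULift.{u} (ZMod 2)) 3 2 (by norm_num) (by norm_num))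

end Pool.Agent.Results.MP_4b2ccd_lc.AllNilpotentVarieties
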